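import Pool.Agent.Y409.FK.Inv

/-! Job FK-CT (helper409): shift of the contour. -/

set_option autoImplicit false

open Finset MeasureTheory Filter

namespace Pool.Agent.Y409.FK

open Pool.Agent.Y755.FK
open Pool.Agent.W182.KO (one_add_inv_sq_int)

noncomputable section

lemma tail_Ioi {T : ℝ} (hT : 1 ≤ T) : ∫ τ in Set.Ioi T, ((1 + |τ|) ^ 2)⁻¹ ≤ 1 / T := by
  have h1 : ∫ t : ℝ in Set.Ioi T, t ^ (-2 : ℝ) = 1 / T := by
    rw [integral_Ioi_rpow_of_lt (by norm_num) (by linarith)]
    have : (-2 : ℝ) + 1 = -1 := by norm_num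
    rw [this, Real.rpow_neg_one]
    ring
  rw [← h1]
  refine setIntegral_mono_on one_add_inv_sq_int.integrableOn
    (integrableOn_Ioi_rpow_of_lt (by norm_num) (by linarith)) measurableSet_Ioi ?_
  intro x hx
  have hx0 : 0 < x := lt_trans (by linarith) (Set.mem_Ioi.1 hx)
  rw [abs_of_pos hx0, Real.rpow_neg hx0.le]
  have : x ^ (2 : ℝ) = x ^ 2 := by norm_cast
  rw [this]
  gcongr
  linarith

lemma tail_Iic {T : ℝ} (hT : 1 ≤ T) : ∫ τ in Set.Iic (-T), ((1 + |τ|) ^ 2)⁻¹ ≤ 1 / T := by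
  have h1 := integral_comp_neg_Iic (-T) (fun τ : ℝ => ((1 + |τ|) ^ 2)⁻¹)
  simp only [abs_neg, neg_neg] at h1
  rw [h1]
  exact tail_Ioi hT

/-- cutting off the tails -/
lemma split_bound {g : ℝ → ℂ} {M T : ℝ} (hT : 1 ≤ T) (hg : Integrable g)
    (hb : ∀ τ, ‖g τ‖ ≤ M * ((1 + |τ|) ^ 2)⁻¹) :
    ‖∫ τ, g τ‖ ≤ ‖∫ τ in (-T)..T, g τ‖ + 2 * M / T := by
  have hM : 0 ≤ M := by
    have := (norm_nonneg _).trans (hb 0); simpa using this
  have e1 : ∫ τ, g τ = (∫ τ in Set.Iic (-T), g τ) + ((∫ τ in (-T)..T, g τ) +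
      ∫ τ in Set.Ioi T, g τ) := by
    rw [intervalIntegral.integral_of_le (by linarith)]
    rw [← setIntegral_union (Set.Ioc_disjoint_Ioi le_rfl) measurableSet_Ioi hg.integrableOn
      hg.integrableOn, Set.Ioc_union_Ioi_eq_Ioi (by linarith),
      intervalIntegral.integral_Iic_add_Ioi hg.integrableOn hg.integrableOn]
  have hmaj : Integrable (fun τ : ℝ => M * ((1 + |τ|) ^ 2)⁻¹) := one_add_inv_sq_int.const_mul M
  have e2 : ‖∫ τ in Set.Iic (-T), g τ‖ ≤ M / T := by
    refine (norm_integral_le_of_norm_le hmaj.integrableOn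
      (Eventually.of_forall fun τ => hb τ)).trans ?_
    rw [integral_const_mul]
    have := tail_Iic hT
    calc M * _ ≤ M * (1 / T) := mul_le_mul_of_nonneg_left this hM
      _ = M / T := by ring
  have e3 : ‖∫ τ in Set.Ioi T, g τ‖ ≤ M / T := by
    refine (norm_integral_le_of_norm_le hmaj.integrableOn
      (Eventually.of_forall fun τ => hb τ)).trans ?_
    rw [integral_const_mul]
    have := tail_Ioi hT
    calc M * _ ≤ M * (1 / T) := mul_le_mul_of_nonneg_left this hM
      _ = M / T := by ring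
  rw [e1]
  have h1 := norm_add_le (∫ τ in Set.Iic (-T), g τ)
    ((∫ τ in (-T)..T, g τ) + ∫ τ in Set.Ioi T, g τ)
  have h2 := norm_add_le (∫ τ in (-T)..T, g τ) (∫ τ in Set.Ioi T, g τ)
  have h3 : 2 * M / T = M / T + M / T := by ring
  rw [h3]
  linarith

lemma kint_nonneg : 0 ≤ ∫ τ : ℝ, ((1 + |τ|) ^ 2)⁻¹ :=
  integral_nonneg fun τ => by positivity

/-- bound of an integral over a segment by the integral over the line -/
lemma seg_bound {f : ℝ → ℂ} {M T : ℝ} (hT : 1 ≤ T) (hM : 0 ≤ M)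
    (hb : ∀ τ, |τ| ≤ T → ‖f τ‖ ≤ M * ((1 + |τ|) ^ 2)⁻¹) :
    ‖∫ τ in (-T)..T, f τ‖ ≤ M * ∫ τ : ℝ, ((1 + |τ|) ^ 2)⁻¹ := by
  have hmaj : Integrable (fun τ : ℝ => M * ((1 + |τ|) ^ 2)⁻¹) := one_add_inv_sq_int.const_mul M
  refine (intervalIntegral.norm_integral_le_of_norm_le (g := fun τ : ℝ => M * ((1 + |τ|) ^ 2)⁻¹)
    (by linarith) (Eventually.of_forall fun τ hτ => ?_) hmaj.intervalIntegrable).trans ?_
  · exact hb τ (abs_le.2 ⟨hτ.1.le, hτ.2⟩)
  · rw [intervalIntegral.integral_of_le (by linarith), ← integral_const_mul]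
    exact setIntegral_le_integral hmaj (Eventually.of_forall fun τ => by positivity)

theorem t_CT : S_PHB → S_INV → S_CT := by
  intro hP hI
  obtain ⟨K, hK0, hK⟩ := Ph_line hP
  have hJ0 := kint_nonneg
  set Jc : ℝ := ∫ τ : ℝ, ((1 + |τ|) ^ 2)⁻¹ with hJc
  refine ⟨K * (Jc + 20), by positivity, ?_⟩
  intro c G u η T B hu hη hη4 hT hB hsum hLB hG hGL
  have hu0 : 0 < u := by linarith
  set σ : ℝ := 1 / u with hσ
  have hσ0 : 0 < σ := by positivity
  have hσ1 : σ ≤ 1 := by rw [hσ, div_le_one hu0]; exact hu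
  have huσ : u * σ = 1 := by rw [hσ]; field_simp
  have hE : Real.exp 1 ≤ 3 := by have := Real.exp_one_lt_d9; linarith
  rw [hI c u σ hσ0 hσ1 hsum]
  set g : ℝ → ℂ := fun τ => Ph (σ + τ * Complex.I) *
    LSeries c (1 + σ + τ * Complex.I) * Complex.exp (u * (σ + τ * Complex.I)) with hg
  have hpi : ‖(1 / (2 * Real.pi) : ℂ)‖ ≤ 1 := by
    rw [norm_div, norm_one, norm_mul, Complex.norm_real, Complex.norm_two,
      Real.norm_of_nonneg Real.pi_pos.le, div_le_one (by positivity)]
    have := Real.pi_gt_three; linarith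
  have hRHS : 0 ≤ K * (Jc + 20) * B * (Real.exp (-(η * u)) + 1 / T) := by positivity
  by_cases hgi : Integrable g
  swap
  · rw [show (∫ τ : ℝ, Ph (σ + τ * Complex.I) *
      LSeries c (1 + σ + τ * Complex.I) * Complex.exp (u * (σ + τ * Complex.I))) = ∫ τ, g τ from rfl,
      integral_undef hgi]
    simpa using hRHS
  have hgb : ∀ τ, ‖g τ‖ ≤ K * B * 3 * ((1 + |τ|) ^ 2)⁻¹ := by
    intro τ
    rw [hg]
    simp only
    rw [norm_mul, norm_mul, Complex.norm_exp]
    have h1 : ((u : ℂ) * (σ + τ * Complex.I)).re = 1 := by simp [huσ]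
    rw [h1]
    have h2 := hK σ τ (by linarith) hσ1
    have h3 := hLB (1 + σ + τ * Complex.I) (by simp [hσ])
    calc ‖Ph (σ + τ * Complex.I)‖ * ‖LSeries c (1 + σ + τ * Complex.I)‖ * Real.exp 1
        ≤ (K * ((1 + |τ|) ^ 2)⁻¹) * B * 3 := by gcongr
      _ = _ := by ring
  have hsp := split_bound hT hgi hgb
  -- the shifted integrals
  set h : ℂ → ℂ := fun w => Ph w * G (1 + w) * Complex.exp (u * w) with hh
  have hhb : ∀ x y : ℝ, -η ≤ x → x ≤ σ → |y| ≤ T →
      ‖h (x + y * Complex.I)‖ ≤ K * B * Real.exp (u * x) * ((1 + |y|) ^ 2)⁻¹ := by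
    intro x y hx1 hx2 hy
    rw [hh]
    simp only
    rw [norm_mul, norm_mul, Complex.norm_exp]
    have h1 : ((u : ℂ) * (x + y * Complex.I)).re = u * x := by simp
    rw [h1]
    have h2 := hK x y (by linarith) (by linarith)
    have h3 := (hG (1 + (x + y * Complex.I)) (by simp; linarith) (by simp; linarith)
      (by simpa using hy)).2
    calc ‖Ph (x + y * Complex.I)‖ * ‖G (1 + (x + y * Complex.I))‖ * Real.exp (u * x)
        ≤ (K * ((1 + |y|) ^ 2)⁻¹) * B * Real.exp (u * x) := by gcongr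
      _ = _ := by ring
  have hcau := Complex.integral_boundary_rect_eq_zero_of_differentiableOn h
    (((-η : ℝ) : ℂ) + ((-T : ℝ) : ℂ) * Complex.I) ((σ : ℂ) + (T : ℂ) * Complex.I) (by
      intro s hs
      rw [Complex.mem_reProdIm] at hs
      simp only [Complex.add_re, Complex.add_im, Complex.mul_re, Complex.mul_im,
        Complex.ofReal_re, Complex.ofReal_im, Complex.I_re, Complex.I_im, mul_zero, mul_one,
        zero_mul, sub_zero, add_zero, zero_add] at hs
      rw [Set.uIcc_of_le (by linarith), Set.uIcc_of_le (by linarith)] at hs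
      have hd := (hG (1 + s) (by simp; linarith [hs.1.1]) (by simp; linarith [hs.1.2])
        (by simpa using abs_le.2 hs.2)).1
      refine DifferentiableAt.differentiableWithinAt ?_
      have hd2 : DifferentiableAt ℂ (fun w => G (1 + w)) s :=
        DifferentiableAt.comp s (f := fun w : ℂ => 1 + w) hd (by fun_prop)
      exact ((hP.2.1 s).mul hd2).mul (by fun_prop))
  simp only [Complex.add_re, Complex.add_im, Complex.mul_re, Complex.mul_im,
        Complex.ofReal_re, Complex.ofReal_im, Complex.I_re, Complex.I_im, mul_zero, mul_one,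
        zero_mul, sub_zero, add_zero, zero_add] at hcau
  have hseg : (∫ τ in (-T)..T, g τ) = ∫ y in (-T)..T, h (σ + y * Complex.I) := by
    refine intervalIntegral.integral_congr fun τ hτ => ?_
    rw [Set.uIcc_of_le (by linarith)] at hτ
    rw [hg, hh]
    simp only
    have : G (1 + (σ + τ * Complex.I)) = LSeries c (1 + σ + τ * Complex.I) := by
      rw [hGL (1 + (σ + τ * Complex.I)) (by simpa using hσ0) (by simp; linarith)
        (by simpa using abs_le.2 hτ)]
      congr 1; ring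
    rw [this]
  have hleft : ‖∫ y in (-T)..T, h (((-η : ℝ) : ℂ) + y * Complex.I)‖ ≤
      K * B * Real.exp (-(η * u)) * Jc := by
    refine seg_bound hT (by positivity) fun τ hτ => ?_
    refine (hhb (-η) τ le_rfl (by linarith) hτ).trans (le_of_eq ?_)
    congr 2
    congr 1
    ring
  have hhor : ∀ Y : ℝ, |Y| = T → ‖∫ x in (-η)..σ, h (x + (Y : ℂ) * Complex.I)‖ ≤
      4 * (K * B) / T := by
    intro Y hY
    have h1 : ∀ x ∈ Set.uIoc (-η) σ, ‖h (x + (Y : ℂ) * Complex.I)‖ ≤ K * B * 3 / T := by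
      intro x hx
      rw [Set.uIoc_of_le (by linarith)] at hx
      refine (hhb x Y hx.1.le hx.2 hY.le).trans ?_
      rw [hY]
      have h2 : Real.exp (u * x) ≤ 3 := by
        refine le_trans (Real.exp_le_exp.2 ?_) hE
        rw [← huσ]
        exact mul_le_mul_of_nonneg_left hx.2 hu0.le
      have h3 : ((1 + T) ^ 2)⁻¹ ≤ 1 / T := by
        rw [inv_eq_one_div]
        apply one_div_le_one_div_of_le (by linarith)
        nlinarith
      calc K * B * Real.exp (u * x) * ((1 + T) ^ 2)⁻¹ ≤ K * B * 3 * (1 / T) := by gcongr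
        _ = _ := by ring
    refine (intervalIntegral.norm_integral_le_of_norm_le_const h1).trans ?_
    have h4 : |σ - -η| ≤ 5 / 4 := by rw [abs_of_pos (by linarith)]; linarith
    have h5 : 0 ≤ K * B * 3 / T := by positivity
    calc K * B * 3 / T * |σ - -η| ≤ K * B * 3 / T * (5 / 4) :=
          mul_le_mul_of_nonneg_left h4 h5
      _ ≤ 4 * (K * B) / T := by
          rw [div_mul_eq_mul_div]
          refine div_le_div_of_nonneg_right ?_ (by linarith)
          have : 0 ≤ K * B := by positivity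
          linarith
  have hh1 := hhor (-T) (by rw [abs_neg, abs_of_pos (by linarith)])
  have hh2 := hhor T (abs_of_pos (by linarith))
  have hmain : ‖∫ y in (-T)..T, h (σ + y * Complex.I)‖ ≤
      K * B * Real.exp (-(η * u)) * Jc + 8 * (K * B) / T := by
    have h6 : (∫ y in (-T)..T, h (σ + y * Complex.I)) =
        (∫ y in (-T)..T, h (((-η : ℝ) : ℂ) + y * Complex.I)) +
        Complex.I * ((∫ x in (-η)..σ, h (x + ((-T : ℝ) : ℂ) * Complex.I)) -
          ∫ x in (-η)..σ, h (x + (T : ℂ) * Complex.I)) := by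
      have hI2 : Complex.I * Complex.I = -1 := Complex.I_mul_I
      simp only [smul_eq_mul] at hcau
      linear_combination (-Complex.I) * hcau + ((∫ y in (-T)..T, h (σ + y * Complex.I)) -
        (∫ y in (-T)..T, h (((-η : ℝ) : ℂ) + y * Complex.I))) * hI2
    rw [h6]
    refine (norm_add_le _ _).trans ?_
    have h7 : ‖Complex.I * ((∫ x in (-η)..σ, h (x + ((-T : ℝ) : ℂ) * Complex.I)) -
          ∫ x in (-η)..σ, h (x + (T : ℂ) * Complex.I))‖ ≤ 4 * (K * B) / T + 4 * (K * B) / T := by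
      rw [norm_mul, Complex.norm_I, one_mul]
      exact (norm_sub_le _ _).trans (add_le_add hh1 hh2)
    have h8 : 8 * (K * B) / T = 4 * (K * B) / T + 4 * (K * B) / T := by ring
    rw [h8]
    exact add_le_add hleft h7
  rw [norm_mul]
  have hfin : ‖∫ τ : ℝ, g τ‖ ≤ K * (Jc + 20) * B * (Real.exp (-(η * u)) + 1 / T) := by
    rw [← hseg] at hmain
    have h9 : K * B * Real.exp (-(η * u)) * Jc + 8 * (K * B) / T + 2 * (K * B * 3) / T ≤
        K * (Jc + 20) * B * (Real.exp (-(η * u)) + 1 / T) := by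
      have h10 : 0 ≤ K * B * Real.exp (-(η * u)) := by positivity
      have h11 : 0 ≤ K * B * Jc / T := by positivity
      have h12 : 0 ≤ K * B / T := by positivity
      have h13 : K * (Jc + 20) * B * (Real.exp (-(η * u)) + 1 / T) -
          (K * B * Real.exp (-(η * u)) * Jc + 8 * (K * B) / T + 2 * (K * B * 3) / T) =
          20 * (K * B * Real.exp (-(η * u))) + K * B * Jc / T + 6 * (K * B / T) := by
        field_simp
        ring
      linarith
    linarith
  calc ‖(1 / (2 * Real.pi) : ℂ)‖ * ‖∫ τ : ℝ, g τ‖ ≤ 1 * ‖∫ τ : ℝ, g τ‖ := by gcongr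
    _ ≤ _ := by rw [one_mul]; exact hfin

end

end Pool.Agent.Y409.FK
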