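import Pool.Agent.Y755.FK.Stm
import Pool.Agent.TH757.GS.Lap

/-! Job FK-INV (helper409): Fourier inversion for local sums. -/

set_option autoImplicit false

open Finset MeasureTheory Filter

namespace Pool.Agent.Y409.FK

open Pool.Agent.Y755.FK
open Pool.Agent.TH757.GS (inv_line)
open Pool.Agent.W182.KO (P one_add_inv_sq_int)

noncomputable section

lemma phi_eq (v : ℝ) : φ v = (max 0 v * max 0 (1 - v)) ^ 2 := by
  unfold φ
  split_ifs with h
  · rw [max_eq_right h.1, max_eq_right (by linarith [h.2])]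
  · by_cases h0 : 0 ≤ v
    · have h1 : 1 < v := by
        by_contra h1; exact h ⟨h0, not_lt.1 h1⟩
      rw [max_eq_left (show 1 - v ≤ 0 by linarith)]
      ring
    · rw [max_eq_left (le_of_lt (not_le.1 h0))]
      ring

lemma phi_cont : Continuous φ := by
  have : φ = fun v => (max 0 v * max 0 (1 - v)) ^ 2 := funext phi_eq
  rw [this]; fun_prop

lemma phi_supp : HasCompactSupport φ := by
  refine HasCompactSupport.intro (isCompact_Icc (a := (0 : ℝ)) (b := 1)) ?_
  intro v hv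
  unfold φ
  rw [if_neg]
  exact hv

lemma phi_nonneg (v : ℝ) : 0 ≤ φ v := by rw [phi_eq]; positivity

lemma phi_neg {v : ℝ} (h : v < 0) : φ v = 0 := by
  unfold φ; rw [if_neg]; intro h1; linarith [h1.1]

lemma P_phi (w : ℂ) : P (fun v => ((φ v : ℝ) : ℂ)) (-w) = Ph w := by
  unfold P Ph
  rw [intervalIntegral.integral_of_le zero_le_one, ← integral_Icc_eq_integral_Ioc,
    ← integral_indicator measurableSet_Icc]
  congr 1; funext ξ
  by_cases h : ξ ∈ Set.Icc (0 : ℝ) 1
  · rw [Set.indicator_of_mem h]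
    have h1 : φ ξ = (ξ * (1 - ξ)) ^ 2 := by
      unfold φ; exact if_pos (show 0 ≤ ξ ∧ ξ ≤ 1 from h)
    simp only [h1]
    congr 2
    ring
  · rw [Set.indicator_of_notMem h]
    have h1 : φ ξ = 0 := by
      unfold φ; exact if_neg (show ¬ (0 ≤ ξ ∧ ξ ≤ 1) from h)
    simp only [h1]
    simp

lemma sq_bd (x : ℝ) : (1 + |x|) ^ 2 ≤ 2 * (1 + x ^ 2) := by
  have := sq_abs x
  nlinarith [sq_nonneg (1 - |x|)]

/-- bound of the transform on vertical lines -/
lemma Ph_line (h : S_PHB) : ∃ K : ℝ, 0 ≤ K ∧ ∀ σ y : ℝ, -1 ≤ σ → σ ≤ 1 →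
    ‖Ph (σ + y * Complex.I)‖ ≤ K * ((1 + |y|) ^ 2)⁻¹ := by
  obtain ⟨⟨C, hC⟩, -, -, -⟩ := h
  have hC0 : 0 ≤ C := by
    have := hC 0 (by simp) (by simp)
    simp at this
    exact (norm_nonneg _).trans this
  refine ⟨2 * C, by positivity, fun σ y h1 h2 => ?_⟩
  refine (hC (σ + y * Complex.I) (by simpa using h1) (by simpa using h2)).trans ?_
  rw [← div_eq_mul_inv, div_le_div_iff₀ (by positivity) (by positivity)]
  have h3 : y ^ 2 ≤ ‖(σ : ℂ) + y * Complex.I‖ ^ 2 := by
    rw [← Complex.normSq_eq_norm_sq, Complex.normSq_add_mul_I]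
    nlinarith [sq_nonneg σ]
  have h4 := sq_bd y
  nlinarith

lemma Ph_cont (h : S_PHB) : Continuous Ph := h.2.1.continuous

lemma Ph_int (h : S_PHB) (σ : ℝ) (h1 : -1 ≤ σ) (h2 : σ ≤ 1) :
    Integrable (fun τ : ℝ => Ph (σ + τ * Complex.I)) := by
  obtain ⟨K, hK0, hK⟩ := Ph_line h
  refine (one_add_inv_sq_int.const_mul K).mono' ?_ (Eventually.of_forall fun τ => hK σ τ h1 h2)
  exact ((Ph_cont h).comp (by fun_prop)).aestronglyMeasurable

/-- the inversion formula for the weight -/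
lemma inv_phi (h : S_PHB) (σ x : ℝ) (h1 : -1 ≤ σ) (h2 : σ ≤ 1) :
    ∫ τ : ℝ, Ph (σ + τ * Complex.I) * Complex.exp (x * (σ + τ * Complex.I)) =
      2 * Real.pi * ((φ x : ℝ) : ℂ) := by
  obtain ⟨K, hK0, hK⟩ := Ph_line h
  have hθ : Continuous (fun v => ((φ v : ℝ) : ℂ)) := Complex.continuous_ofReal.comp phi_cont
  have hcs : HasCompactSupport (fun v => ((φ v : ℝ) : ℂ)) :=
    phi_supp.comp_left (g := fun x : ℝ => (x : ℂ)) (by simp)
  have e0 : ∀ y : ℝ, P (fun v => ((φ v : ℝ) : ℂ)) (((-σ : ℝ) : ℂ) + y * Complex.I) =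
      Ph (σ + ((-y : ℝ) : ℂ) * Complex.I) := by
    intro y
    rw [← P_phi]
    congr 1
    push_cast; ring
  have key := inv_line (θ := fun v => ((φ v : ℝ) : ℂ)) hθ (c := -σ) (K := K) ?_ ?_ ?_ x
  · have e1 : (∫ τ : ℝ, Ph (σ + τ * Complex.I) * Complex.exp (x * (σ + τ * Complex.I))) =
        Complex.exp (x * σ) * ∫ y : ℝ, P (fun v => ((φ v : ℝ) : ℂ))
          (((-σ : ℝ) : ℂ) + y * Complex.I) * Complex.exp (-(x * y) * Complex.I) := by
      rw [← integral_const_mul]
      rw [← integral_neg_eq_self]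
      congr 1; funext y
      rw [e0]
      rw [mul_left_comm, ← Complex.exp_add]
      congr 2
      push_cast; ring
    rw [e1, key]
    have e2 : Complex.exp (x * σ) * Complex.exp (x * ((-σ : ℝ) : ℂ)) = 1 := by
      rw [← Complex.exp_add]
      have : (x : ℂ) * σ + x * ((-σ : ℝ) : ℂ) = 0 := by push_cast; ring
      rw [this, Complex.exp_zero]
    linear_combination (2 * Real.pi * ((φ x : ℝ) : ℂ)) * e2
  · refine Continuous.integrable_of_hasCompactSupport (by fun_prop) ?_
    exact hcs.mul_right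
  · intro y
    rw [e0]
    refine (hK σ (-y) h1 h2).trans ?_
    rw [abs_neg]
  · have : (fun y : ℝ => P (fun v => ((φ v : ℝ) : ℂ)) (((-σ : ℝ) : ℂ) + y * Complex.I)) =
        fun y : ℝ => Ph (σ + ((-y : ℝ) : ℂ) * Complex.I) := funext e0
    rw [this]
    exact (Ph_cont h).comp (by fun_prop)

theorem t_INV : S_PHB → S_INV := by
  intro hP c u σ hσ hσ1 hsum
  have hs1 : LSeriesSummable c (1 + σ : ℂ) := hsum _ (by simpa using hσ)
  set F : ℕ → ℝ → ℂ := fun n τ => Ph (σ + τ * Complex.I) *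
    LSeries.term c (1 + σ + τ * Complex.I) n * Complex.exp (u * (σ + τ * Complex.I)) with hF
  have hterm : ∀ n : ℕ, ∀ τ : ℝ, LSeries.term c (1 + σ + τ * Complex.I) n =
      (if n = 0 then 0 else c n / n) * Complex.exp (-(Real.log n) * (σ + τ * Complex.I)) := by
    intro n τ
    by_cases hn : n = 0
    · simp [hn]
    · have hn0 : (n : ℂ) ≠ 0 := Nat.cast_ne_zero.2 hn
      rw [LSeries.term_of_ne_zero hn, if_neg hn]
      rw [show (1 + σ + τ * Complex.I : ℂ) = 1 + (σ + τ * Complex.I) by ring,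
        Complex.cpow_add _ _ hn0, Complex.cpow_one, Complex.cpow_def_of_ne_zero hn0]
      rw [← Complex.natCast_log, neg_mul, Complex.exp_neg]
      have := Complex.exp_ne_zero ((Real.log n : ℂ) * (σ + τ * Complex.I))
      field_simp
  have hFe : ∀ n : ℕ, ∀ τ : ℝ, F n τ = (if n = 0 then 0 else c n / n) *
      (Ph (σ + τ * Complex.I) *
        Complex.exp (((u - Real.log n : ℝ) : ℂ) * (σ + τ * Complex.I))) := by
    intro n τ
    rw [hF]
    simp only
    rw [hterm]
    have : Complex.exp (((u - Real.log n : ℝ) : ℂ) * (σ + τ * Complex.I)) =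
        Complex.exp (-(Real.log n) * (σ + τ * Complex.I)) *
          Complex.exp (u * (σ + τ * Complex.I)) := by
      rw [← Complex.exp_add]; congr 1; push_cast; ring
    rw [this]; ring
  have hPi := Ph_int hP σ (by linarith) hσ1
  have hG : ∀ n : ℕ, Integrable (fun τ : ℝ => Ph (σ + τ * Complex.I) *
        Complex.exp (((u - Real.log n : ℝ) : ℂ) * (σ + τ * Complex.I))) := by
    intro n
    refine hPi.mul_bdd (c := Real.exp ((u - Real.log n) * σ)) ?_ ?_
    · exact (by fun_prop : Continuous fun τ : ℝ =>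
        Complex.exp (((u - Real.log n : ℝ) : ℂ) * (σ + τ * Complex.I))).aestronglyMeasurable
    · refine Eventually.of_forall fun τ => ?_
      rw [Complex.norm_exp, Complex.re_ofReal_mul]
      simp
  have hFi : ∀ n : ℕ, Integrable (F n) := by
    intro n
    have : F n = fun τ : ℝ => (if n = 0 then 0 else c n / n) * (Ph (σ + τ * Complex.I) *
        Complex.exp (((u - Real.log n : ℝ) : ℂ) * (σ + τ * Complex.I))) := funext (hFe n)
    rw [this]
    exact (hG n).const_mul _
  have hFn : ∀ n : ℕ, ∀ τ : ℝ, ‖F n τ‖ =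
      ‖LSeries.term c (1 + σ : ℂ) n‖ * (Real.exp (u * σ) * ‖Ph (σ + τ * Complex.I)‖) := by
    intro n τ
    rw [hF]
    simp only
    rw [norm_mul, norm_mul, Complex.norm_exp]
    have h1 : ‖LSeries.term c (1 + σ + τ * Complex.I) n‖ = ‖LSeries.term c (1 + σ : ℂ) n‖ := by
      rw [LSeries.norm_term_eq, LSeries.norm_term_eq]
      simp
    rw [h1]
    have h2 : ((u : ℂ) * (σ + τ * Complex.I)).re = u * σ := by simp
    rw [h2]; ring
  have hsn : Summable fun n => ∫ τ, ‖F n τ‖ := by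
    have : (fun n => ∫ τ, ‖F n τ‖) = fun n => ‖LSeries.term c (1 + σ : ℂ) n‖ *
        ∫ τ : ℝ, (Real.exp (u * σ) * ‖Ph (σ + τ * Complex.I)‖) := by
      funext n
      rw [← integral_const_mul]
      congr 1; funext τ
      exact hFn n τ
    rw [this]
    exact (summable_norm_iff.2 hs1).mul_right _
  have hHS := hasSum_integral_of_summable_integral_norm hFi hsn
  have hR : (∫ τ : ℝ, ∑' n, F n τ) = ∫ τ : ℝ, Ph (σ + τ * Complex.I) *
      LSeries c (1 + σ + τ * Complex.I) * Complex.exp (u * (σ + τ * Complex.I)) := by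
    congr 1; funext τ
    rw [hF]
    simp only
    rw [tsum_mul_right, tsum_mul_left]
    rfl
  rw [← hR, ← hHS.tsum_eq]
  have hI : ∀ n, (∫ τ, F n τ) = (if n = 0 then 0 else c n / n) *
      (2 * Real.pi * ((φ (u - Real.log n) : ℝ) : ℂ)) := by
    intro n
    rw [← inv_phi hP σ (u - Real.log n) (by linarith) hσ1, ← integral_const_mul]
    congr 1; funext τ
    exact hFe n τ
  have hS : (∑' n, ∫ τ, F n τ) = ∑ k ∈ Icc 1 ⌊Real.exp u⌋₊, c k / k *
      (2 * Real.pi * ((φ (u - Real.log k) : ℝ) : ℂ)) := by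
    rw [tsum_eq_sum (s := Icc 1 ⌊Real.exp u⌋₊)]
    · refine Finset.sum_congr rfl fun k hk => ?_
      rw [hI, if_neg (by have := (Finset.mem_Icc.1 hk).1; omega)]
    · intro k hk
      rw [hI]
      by_cases hk0 : k = 0
      · simp [hk0]
      · have h1 : Real.exp u < k := by
          by_contra h2
          exact hk (Finset.mem_Icc.2 ⟨Nat.one_le_iff_ne_zero.2 hk0, Nat.le_floor (not_lt.1 h2)⟩)
        have h3 : u < Real.log k := by
          rw [Real.lt_log_iff_exp_lt (by positivity)]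
          exact h1
        rw [phi_neg (by linarith)]
        simp
  rw [hS]
  unfold LS
  rw [Finset.mul_sum]
  refine Finset.sum_congr rfl fun k _ => ?_
  have hpi : (Real.pi : ℂ) ≠ 0 := by exact_mod_cast Real.pi_ne_zero
  field_simp

end

end Pool.Agent.Y409.FK
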